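import Mathlib
import Pool.Agent.Y16.AF.Fin

/-!
# Asymptotic freedom of lattice Yang-Mills theory

Wilson's lattice gauge theory with gauge group an arbitrary closed subgroup `G` of `U(N)` on the
four dimensional lattice `{0, …, L} × (ℤ/L)³`, periodic in the three directions of space, with the
Dirichlet boundary values of a constant chromoelectric field `ε T / L²` in the direction of time and
the first direction of space. The inverse of the running coupling at the scale `L` is the second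
derivative of the free energy with respect to the boundary field (the Schrödinger functional
coupling). It equals
`β ‖T‖² - 11 / (24 π²) κ(T) log L + x κ(T) - (1/4) ∑ ‖X_a T‖² + o(1)`, `κ(T) = - tr (ad T)²`,
as `L → ∞`, uniformly in `β ≥ L ^ K` and in `T`: the coupling grows with the scale as asymptotic
freedom says, with the coefficient `11/3` of Gross, Wilczek and Politzer.
-/

open MeasureTheory Matrix Filter
open scoped Matrix.Norms.Frobenius Topology

namespace Pool.Agent.Results.MP_7f377f_mp.AsymptoticFreedom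

noncomputable section

/-- Square matrices; their norm is the Frobenius norm. -/
abbrev Mt (N : ℕ) := Matrix (Fin N) (Fin N) ℂ

/-- The unitary group `U(N)`. -/
abbrev UU (N : ℕ) := Matrix.unitaryGroup (Fin N) ℂ

/-- The matrix of an element of a subgroup of `U(N)`. -/
def mt {N : ℕ} {G : Subgroup (UU N)} (g : G) : Mt N := ((g : UU N) : Mt N)

/-- Points of space, `(ℤ/L)³`. -/
abbrev Sp (L : ℕ) := Fin 3 → ZMod L

/-- The dynamical links: `(x, inl t)` is the link from `(t, x)` to `(t + 1, x)`, `0 ≤ t < L`, and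
`(x, inr (s, j))` is the link from `(s + 1, x)` to `(s + 1, x + e_j)`, `s + 1 < L`. -/
abbrev Links (L : ℕ) := Sp L × (Fin L ⊕ (Fin (L - 1) × Fin 3))

section lattice

variable {N L : ℕ} {G : Subgroup (UU N)}

/-- The variable of the link from `(t, x)` to `(t + 1, x)`. -/
def tv (U : Links L → G) (t : ℕ) (x : Sp L) : G := if h : t < L then U (x, .inl ⟨t, h⟩) else 1

/-- The variable of the link from `(t, x)` to `(t, x + e_j)`; at the times `0` and `L` it is the
boundary value, `1` and `exp (ε T / L)` for `j = 0`, `1` for `j ≠ 0`, where `e s = exp (s T)`. -/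
def sv (e : ℝ → G) (ε : ℝ) (U : Links L → G) (t : ℕ) (x : Sp L) (j : Fin 3) : G :=
  if h : 0 < t ∧ t < L then U (x, .inr (⟨t - 1, by omega⟩, j))
  else if t = L ∧ j = 0 then e (ε / L) else 1

/-- The plaquette at `(t, x)` in the direction of time and the direction `j` of space. -/
def tplaq (e : ℝ → G) (ε : ℝ) (U : Links L → G) (t : ℕ) (x : Sp L) (j : Fin 3) : G :=
  tv U t x * sv e ε U (t + 1) x j * (tv U t (x + Pi.single j 1))⁻¹ * (sv e ε U t x j)⁻¹

/-- The plaquette at `(t, x)` in the directions `i`, `j` of space. -/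
def splaq (e : ℝ → G) (ε : ℝ) (U : Links L → G) (t : ℕ) (x : Sp L) (i j : Fin 3) : G :=
  sv e ε U t x i * sv e ε U t (x + Pi.single i 1) j * (sv e ε U t (x + Pi.single j 1) i)⁻¹ *
    (sv e ε U t x j)⁻¹

/-- The Wilson action: the sum of `Re tr (1 - U_p)` over all plaquettes. -/
def action [NeZero L] (e : ℝ → G) (ε : ℝ) (U : Links L → G) : ℝ :=
  ∑ x : Sp L, ((∑ t ∈ Finset.range L, ∑ j, (trace (1 - mt (tplaq e ε U t x j))).re) +
    ∑ t ∈ Finset.range (L + 1), ∑ i, ∑ j,
      if i < j then (trace (1 - mt (splaq e ε U t x i j))).re else 0)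

/-- The Schrödinger functional: the partition function with the given boundary values. -/
def Z [MeasurableSpace G] (μ : Measure G) (e : ℝ → G) (L : ℕ) [NeZero L] (β ε : ℝ) : ℝ :=
  ∫ U : Links L → G, Real.exp (-(β * action e ε U)) ∂(Measure.pi fun _ => μ)

/-- The inverse running coupling at the scale `L`: the second derivative of the free energy
`- log Z` with respect to the boundary field. -/
def invCoupling [MeasurableSpace G] (μ : Measure G) (e : ℝ → G) (L : ℕ) [NeZero L] (β : ℝ) : ℝ :=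
  iteratedDeriv 2 (fun ε => -Real.log (Z μ e L β ε)) 0

end lattice

/-- `Y` is in the Lie algebra of `G`. -/
def IsLie {N : ℕ} (G : Subgroup (UU N)) (Y : Mt N) : Prop :=
  ∀ t : ℝ, ∃ g : G, mt g = NormedSpace.exp (t • Y)

/-- `X` is an orthonormal basis of the Lie algebra of `G` for the scalar product `Re tr (Y* Z)`. -/
def IsBasis {N n : ℕ} (G : Subgroup (UU N)) (X : Fin n → Mt N) : Prop :=
  (∀ a b, (trace ((X a)ᴴ * X b)).re = if a = b then 1 else 0) ∧
    ∀ Y, IsLie G Y ↔ Y ∈ Submodule.span ℝ (Set.range X)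

/-- The Lie algebra of `G` is simple. -/
def IsSimple {N : ℕ} (G : Subgroup (UU N)) : Prop :=
  (∃ Y Z, IsLie G Y ∧ IsLie G Z ∧ Y * Z ≠ Z * Y) ∧
    ∀ W : Submodule ℝ (Mt N), (∀ Y ∈ W, IsLie G Y) →
      (∀ Y ∈ W, ∀ Z, IsLie G Z → Z * Y - Y * Z ∈ W) → W = ⊥ ∨ ∀ Y, IsLie G Y → Y ∈ W

/-- The inverse running coupling is `m T β L` up to an error which tends to zero as `L → ∞`,
uniformly in `β ≥ L ^ K` and in the field `T`. -/
def Runs {N : ℕ} (G : Subgroup (UU N)) [MeasurableSpace G] (μ : Measure G) (K : ℕ)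
    (m : Mt N → ℝ → ℕ → ℝ) : Prop :=
  ∃ δ : ℕ → ℝ, Tendsto δ atTop (𝓝 0) ∧ ∀ (T : Mt N) (e : ℝ → G),
    (∀ t, mt (e t) = NormedSpace.exp (t • T)) → ∀ (L : ℕ) [NeZero L], 2 ≤ L → ∀ β : ℝ,
      (L : ℝ) ^ K ≤ β → |invCoupling μ e L β - m T β L| ≤ δ L * ‖T‖ ^ 2

/-- **Asymptotic freedom of lattice Yang-Mills theory.** -/
theorem result : ∃ (x : ℝ) (K : ℕ), ∀ {N : ℕ} (G : Subgroup (UU N))
    (_ : IsClosed (G : Set (UU N))) [MeasurableSpace G] [BorelSpace G] (μ : Measure G)
    [IsProbabilityMeasure μ] [μ.IsHaarMeasure],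
    (∀ {n : ℕ} (X : Fin n → Mt N), IsBasis G X → Runs G μ K fun T β L =>
      β * ‖T‖ ^ 2 - 11 / (24 * Real.pi ^ 2) * (∑ a, ‖T * X a - X a * T‖ ^ 2) * Real.log L +
        x * (∑ a, ‖T * X a - X a * T‖ ^ 2) - 1 / 4 * ∑ a, ‖X a * T‖ ^ 2) ∧
    (IsSimple G → ∃ c f : ℝ, 0 < c ∧ Runs G μ K fun T β L =>
      ‖T‖ ^ 2 * (β - 11 / (24 * Real.pi ^ 2) * c * Real.log L + x * c - 1 / 4 * f)) ∧
    ((∀ U : UU N, U ∈ G ↔ det (U : Mt N) = 1) → Runs G μ K fun T β L =>
      ‖T‖ ^ 2 * (β - 11 * N / (12 * Real.pi ^ 2) * Real.log L + 2 * N * x -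
        1 / 4 * (N - 1 / N))) :=
  Pool.Agent.Y16.AF.final

end

end Pool.Agent.Results.MP_7f377f_mp.AsymptoticFreedom
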