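import Mathlib
import Pool.Agent.H906R3.YM.Conc
import Pool.Agent.W793.YM.Inf
import Pool.Agent.TH618.YM.Cartan
import Pool.Agent.Y15.Zl4

/-!
# Lattice Yang-Mills theory in dimension at least four: the energy of a pair of static charges

Wilson's lattice gauge theory in dimension `d ≥ 4` with gauge group an arbitrary closed subgroup `G`
of `U(N)` at the inverse coupling `β`, in the infinite volume. For all large `β`, every infinite
volume limit, all directions `i ≠ τ` and all large `R` there is a lattice path `w` of at most `3 R`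
steps, none of them in the direction `τ`, from `0` to `R e_i`, such that the Wilson loops formed by
`w`, its translate by `T e_τ` and the two straight lines of length `T` between them are positive and
decay in `T` with a rate between `0` and `C (log β) ^ 5 / β ^ 3 * R`.
-/

open MeasureTheory Matrix Filter
open scoped Matrix.Norms.Frobenius Topology ContDiff

namespace Pool.Agent.Results.MP_7f377f_mp.FluxTubeEnergy

set_option linter.unusedSectionVars false

noncomputable section

/-- Complex `N × N` matrices. -/
abbrev Mt (N : ℕ) := Matrix (Fin N) (Fin N) ℂ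

/-- The unitary group `U(N)`. -/
abbrev UU (N : ℕ) := Matrix.unitaryGroup (Fin N) ℂ

/-- The matrix of an element of a subgroup of `U(N)`. -/
def mt {N : ℕ} {G : Subgroup (UU N)} (g : G) : Mt N := ((g : UU N) : Mt N)

/-- Links of the periodic lattice `(ℤ/l)^d`: base point and direction. -/
abbrev Link (d l : ℕ) := (Fin d → ZMod l) × Fin d

/-- Links of the lattice `ℤ^d`: base point and direction. -/
abbrev LinkZ (d : ℕ) := (Fin d → ℤ) × Fin d

/-- The end point of the path which starts at `x` and has the steps `w`: `(k, true)` is a step by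
`e_k`, `(k, false)` a step by `-e_k`. -/
def dest {d : ℕ} : (Fin d → ℤ) → List (Fin d × Bool) → (Fin d → ℤ)
  | x, [] => x
  | x, (k, true) :: w => dest (x + Pi.single k 1) w
  | x, (k, false) :: w => dest (x - Pi.single k 1) w

section

variable {N n d l : ℕ} {G : Subgroup (UU N)}

/-- The product of the link variables around the plaquette at `x` in the directions `i`, `j`. -/
def plaq (U : Link d l → G) (x : Fin d → ZMod l) (i j : Fin d) : G :=
  U (x, i) * U (x + Pi.single i 1, j) * (U (x + Pi.single j 1, i))⁻¹ * (U (x, j))⁻¹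

/-- The Wilson action `∑_p Re tr (1 - U_p)`, the sum over the plaquettes. -/
def action [NeZero l] (U : Link d l → G) : ℝ :=
  ∑ x : Fin d → ZMod l, ∑ i : Fin d, ∑ j : Fin d,
    if i < j then (trace (1 - mt (plaq U x i j))).re else 0

/-- The periodic extension of a configuration. -/
def per (U : Link d l → G) : LinkZ d → G := fun e => U (fun i => (e.1 i : ZMod l), e.2)

/-- The expectation of `F` in the lattice Yang-Mills theory on `(ℤ/l)^d`, `μ` being the Haar
measure. -/
def expect (l : ℕ) [NeZero l] [MeasurableSpace G] (μ : Measure G) (β : ℝ)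
    (F : (LinkZ d → G) → ℝ) : ℝ :=
  (∫ U : Link d l → G, F (per U) * Real.exp (-(β * action U)) ∂(Measure.pi fun _ => μ)) /
    ∫ U : Link d l → G, Real.exp (-(β * action U)) ∂(Measure.pi fun _ => μ)

/-- `ν` is an infinite volume limit (weak limit along a subsequence) of the theories on the tori of
even side at inverse coupling `β`. -/
structure IsInfVol [MeasurableSpace G] (μ : Measure G) (β : ℝ)
    (ν : Measure (LinkZ d → G)) : Prop where
  prob : IsProbabilityMeasure ν
  lim : ∃ s : ℕ → ℕ, Tendsto s atTop atTop ∧ ∀ F : (LinkZ d → G) → ℝ, Continuous F →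
    Tendsto (fun j => expect (2 * (s j + 1)) μ β F) atTop (𝓝 (∫ V, F V ∂ν))

/-- The product of the link variables along the path which starts at `x` and has the steps `w`. -/
def hol (V : LinkZ d → G) : (Fin d → ℤ) → List (Fin d × Bool) → G
  | _, [] => 1
  | x, (k, true) :: w => V (x, k) * hol V (x + Pi.single k 1) w
  | x, (k, false) :: w => (V (x - Pi.single k 1, k))⁻¹ * hol V (x - Pi.single k 1) w

/-- The product of the link variables around the loop formed by the path which starts at `x` and
has the steps `w`, the straight line of length `T` in the direction `τ` from its end, the translate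
of the path by `T e_τ` and the straight line of length `T` in the direction `τ` from `x`. -/
def loop (V : LinkZ d → G) (τ : Fin d) (x : Fin d → ℤ) (w : List (Fin d × Bool)) (T : ℕ) : G :=
  hol V x w * hol V (dest x w) (List.replicate T (τ, true)) *
    (hol V (x + Pi.single τ (T : ℤ)) w)⁻¹ * (hol V x (List.replicate T (τ, true)))⁻¹

/-- The Wilson loop: the expectation of `(1/N) Re tr` of the product around the loop. -/
def wilson [MeasurableSpace G] (ν : Measure (LinkZ d → G)) (τ : Fin d) (x : Fin d → ℤ)
    (w : List (Fin d × Bool)) (T : ℕ) : ℝ := ∫ V, (trace (mt (loop V τ x w T))).re / N ∂ν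

end

open Pool.Agent.H906R3 Pool.Agent.W793 Pool.Agent.TH618

variable {N n d l : ℕ} {G : Subgroup (UU N)}

/-- A Haar probability measure is invariant under right multiplications. -/
lemma right_inv {H : Type*} [Group H] [TopologicalSpace H] [IsTopologicalGroup H]
    [CompactSpace H] [MeasurableSpace H] [BorelSpace H] (μ : Measure H)
    [IsProbabilityMeasure μ] [μ.IsHaarMeasure] : μ.IsMulRightInvariant := by
  refine ⟨fun g => ?_⟩
  have h1 : IsProbabilityMeasure (Measure.map (fun x => x * g) μ) :=
    Measure.isProbabilityMeasure_map (measurable_mul_const g).aemeasurable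
  exact Measure.isHaarMeasure_eq_of_isProbabilityMeasure _ _

/-- A Haar probability measure is invariant under the inversion. -/
lemma inv_inv' {H : Type*} [Group H] [TopologicalSpace H] [IsTopologicalGroup H]
    [CompactSpace H] [MeasurableSpace H] [BorelSpace H] (μ : Measure H)
    [IsProbabilityMeasure μ] [μ.IsHaarMeasure] : μ.IsInvInvariant := by
  have hr := right_inv μ
  refine ⟨?_⟩
  have h1 : IsProbabilityMeasure μ.inv :=
    Measure.isProbabilityMeasure_map measurable_inv.aemeasurable
  have h2 : μ.inv.IsMulLeftInvariant := inferInstance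
  have h3 : μ.inv.IsHaarMeasure :=
    Measure.isHaarMeasure_of_isCompact_nonempty_interior μ.inv Set.univ isCompact_univ
      (by simp) (by simp) (by simp)
  exact Measure.isHaarMeasure_eq_of_isProbabilityMeasure _ _

lemma action_eq [NeZero l] (B : YM.Frame G n) (U : Link d l → G) :
    action U = YM.act B.toLD U := rfl

section bridge

variable [CompactSpace G] [SecondCountableTopology G] [MeasurableSpace G] [BorelSpace G]
  (μ : Measure G) [IsProbabilityMeasure μ] [μ.IsHaarMeasure] (B : YM.Frame G n)

lemma expect_eq [NeZero l] (β : ℝ) (F : (LinkZ d → G) → ℝ) : expect l μ β F =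
    YM.EX μ B.toLD β (fun U : YM.Ed d l → G => F (YM.lf U)) := by
  unfold expect YM.EX YM.Zt
  simp only [one_mul]
  rfl

include B in
lemma action_cont [NeZero l] : Continuous (action : (Link d l → G) → ℝ) :=
  YM.act_cont (L := B.toLD)

include B in
/-- existence of infinite volume limits -/
lemma exists_infVol (β : ℝ) : ∃ ν : Measure (LinkZ d → G), IsInfVol μ β ν := by
  have hP : ∀ j : ℕ, ∃ P : ProbabilityMeasure (LinkZ d → G),
      ∀ F : (LinkZ d → G) → ℝ, Continuous F →
        ∫ V, F V ∂(P : Measure (LinkZ d → G)) = expect (2 * (j + 1)) μ β F := by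
    intro j
    have hper : Continuous (per : (Link d (2 * (j + 1)) → G) → LinkZ d → G) :=
      continuous_pi fun e => continuous_apply _
    have hexp : Continuous fun U : Link d (2 * (j + 1)) → G =>
        Real.exp (-(β * action U)) :=
      Real.continuous_exp.comp (continuous_const.mul (action_cont B)).neg
    have hint : Integrable (fun U : Link d (2 * (j + 1)) → G =>
        Real.exp (-(β * action U))) (Measure.pi fun _ => μ) :=
      hexp.integrable_of_hasCompactSupport (HasCompactSupport.of_compactSpace _)
    have h1 := isProbabilityMeasure_tilted (f := fun U : Link d (2 * (j + 1)) → G =>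
      -(β * action U)) hint
    refine ⟨⟨((Measure.pi fun _ => μ).tilted fun U : Link d (2 * (j + 1)) → G =>
      -(β * action U)).map per, Measure.isProbabilityMeasure_map hper.aemeasurable⟩,
      fun F hF => ?_⟩
    show ∫ V, F V ∂(((Measure.pi fun _ => μ).tilted fun U : Link d (2 * (j + 1)) → G =>
      -(β * action U)).map per) = _
    rw [integral_map hper.aemeasurable hF.aestronglyMeasurable, integral_tilted]
    unfold expect
    rw [← integral_div]
    refine integral_congr_ae (Filter.Eventually.of_forall fun U => ?_)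
    simp only [smul_eq_mul]
    ring
  choose P hP using hP
  obtain ⟨ν, s, hs, hlim⟩ := CompactSpace.tendsto_subseq P
  refine ⟨ν, ⟨inferInstance, s, hs.tendsto_atTop, fun F hF => ?_⟩⟩
  have h1 := (ProbabilityMeasure.tendsto_iff_forall_integral_tendsto.1 hlim)
    (BoundedContinuousFunction.mkOfCompact ⟨F, hF⟩)
  simp only [Function.comp_apply, BoundedContinuousFunction.mkOfCompact_apply,
    ContinuousMap.coe_mk] at h1
  simpa only [hP _ F hF] using h1

end bridge

lemma dest_eq (x : Fin d → ℤ) (w : List (Fin d × Bool)) : dest x w = Y15.dz x w := by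
  induction w generalizing x with
  | nil => rfl
  | cons s w ih =>
    obtain ⟨k, b⟩ := s
    cases b
    · exact ih _
    · exact ih _

lemma hol_eq (V : LinkZ d → G) (x : Fin d → ℤ) (w : List (Fin d × Bool)) :
    hol V x w = Y15.hz V x w := by
  induction w generalizing x with
  | nil => rfl
  | cons s w ih =>
    obtain ⟨k, b⟩ := s
    cases b
    · show (V (x - Pi.single k 1, k))⁻¹ * hol V (x - Pi.single k 1) w = _
      rw [ih]; rfl
    · show V (x, k) * hol V (x + Pi.single k 1) w = _
      rw [ih]; rfl

lemma loop_eq (B : YM.Frame G n) (V : LinkZ d → G) (τ : Fin d) (x : Fin d → ℤ)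
    (w : List (Fin d × Bool)) (T : ℕ) :
    (trace (mt (loop V τ x w T))).re = Y15.Wz B.toLD τ x w T V := by
  unfold loop Y15.Wz
  rw [dest_eq, hol_eq, hol_eq, hol_eq, hol_eq]
  rfl

theorem result {N : ℕ} (hN : 1 ≤ N) : ∃ C β₀ : ℝ, 0 < C ∧ 1 < β₀ ∧
    ∀ {d : ℕ}, 4 ≤ d → ∀ G : Subgroup (UU N), IsClosed (G : Set (UU N)) →
    ∀ [MeasurableSpace G] [BorelSpace G] (μ : Measure G) [IsProbabilityMeasure μ]
      [μ.IsHaarMeasure] (β : ℝ), β₀ ≤ β →
      (∀ ν : Measure (LinkZ d → G), IsInfVol μ β ν → ∀ i τ : Fin d, i ≠ τ →
        ∃ R₀ : ℕ, ∀ R : ℕ, R₀ ≤ R → ∃ w : List (Fin d × Bool),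
          dest 0 w = Pi.single i (R : ℤ) ∧ (∀ e ∈ w, e.1 ≠ τ) ∧ w.length ≤ 3 * R ∧
          (∀ (x : Fin d → ℤ) (T : ℕ), 0 < wilson ν τ x w T) ∧
          ∃ V : ℝ, (∀ x : Fin d → ℤ,
            Tendsto (fun T : ℕ => -Real.log (wilson ν τ x w T) / T) atTop (𝓝 V)) ∧
            0 ≤ V ∧ V ≤ C * Real.log β ^ 5 / β ^ 3 * R) ∧
      ∃ ν : Measure (LinkZ d → G), IsInfVol μ β ν := by
  refine ⟨Y15.CO N, Y15.bO N, Y15.CO_pos hN, by have := Y15.bO_three N; linarith, ?_⟩
  intro d hd G hG _ _ μ _ _ β hβ
  have : CompactSpace G := by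
    have h1 : IsCompact (G : Set (UU N)) := hG.isCompact
    exact isCompact_iff_compactSpace.1 h1
  have h00 : SecondCountableTopology (UU N) := TopologicalSpace.Subtype.secondCountableTopology _
  have : SecondCountableTopology G := TopologicalSpace.Subtype.secondCountableTopology _
  have := right_inv μ
  have := inv_inv' μ
  obtain ⟨n, ⟨B⟩⟩ := YM.exists_frame hG
  have hmain := Pool.Agent.Y15.soft_path μ (L := B.toLD) (d := d) hN hd
  refine ⟨fun ν hν i τ hiτ => ?_, exists_infVol μ B β⟩
  obtain ⟨s, hs, hlim⟩ := hν.lim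
  obtain ⟨R₀, hR₀⟩ := hmain β hβ i τ hiτ s hs (fun F => ∫ V, F V ∂ν) fun F hF =>
    (hlim F hF).congr fun k => expect_eq μ B β F
  refine ⟨R₀, fun R hR => ?_⟩
  obtain ⟨w, h1, h2, h3, V, h4, h5, h6⟩ := hR₀ R hR
  have hW : ∀ (x : Fin d → ℤ) (T : ℕ), wilson ν τ x w T =
      (∫ V, Y15.Wz B.toLD τ x w T V ∂ν) / N := by
    intro x T
    unfold wilson
    rw [integral_div]
    simp only [loop_eq B]
  refine ⟨w, by rw [dest_eq]; exact h1, h2, h3, fun x T => ?_, V, fun x => ?_, h4, h5⟩
  · rw [hW]; exact (h6 x).1 T
  · simp only [hW]; exact (h6 x).2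

end

end Pool.Agent.Results.MP_7f377f_mp.FluxTubeEnergy
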