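import Pool.Agent.Y16.NextOrder.Proof

/-!
# Lattice Yang-Mills theory: the first corrections to the Gaussian behaviour

Wilson's lattice gauge theory in dimension `d ≥ 3` with gauge group an arbitrary closed subgroup `G`
of `U(N)` at the inverse coupling `β`, on the periodic lattices `(ℤ/l)^d` with `l ≥ β` even and in all
their infinite volume limits. For every gauge invariant polynomial `O` of even degree in the parallel
transported covariant derivatives `D^J F_p(x)` of the lattice field strength at arbitrary points, all
of them with at least four derivatives,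
`⟨O⟩ = a₀ + a₁ / β + o(1 / β)`, uniformly in the volume and in the infinite volume limit, where `a₀`
is the explicit expectation of `O` in the Gaussian lattice Maxwell theory and `a₁` depends on the
observable only: the next to leading (one loop) coefficient of the perturbation expansion exists in
infinite volume and the expansion is asymptotic to this order. For every such polynomial of odd
degree, for which the Gaussian expectation is zero, `⟨O⟩ = a₁ / √β + o(1 / √β)`; here two of the
factors may have fewer derivatives. For the fields `Re tr (D^J F_p F_q F_r)(0)` of degree three the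
coefficient `a₁` is the sum of the squares of the structure constants times an explicit absolutely
convergent lattice sum, the three gluon term, and it is not zero for suitable `J` of any length if the
Lie algebra is not abelian.
-/

open MeasureTheory Matrix Filter
open scoped Matrix.Norms.Frobenius Topology
open Pool.Agent.Y16.Gluon
open Pool.Agent.Y16.NextOrder

namespace Pool.Agent.Results.MP_7f377f_mp.NextOrder

/-- **The first corrections to the Gaussian behaviour of lattice Yang-Mills theory.** -/
theorem result {N n d : ℕ} (hd : 3 ≤ d) (G : Subgroup (UU N)) (hG : IsClosed (G : Set (UU N)))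
    [MeasurableSpace G] [BorelSpace G] (μ : Measure G) [IsProbabilityMeasure μ] [μ.IsHaarMeasure]
    (B : LieBasis G n) :
    (∀ β : ℝ, ∃ ν : Measure (LinkZ d → G), IsInfVol μ β ν) ∧
    (∀ (m : ℕ) (O : Observable G d m),
      (∀ (β : ℝ) (γ : (Fin d → ℤ) → G) (V : LinkZ d → G),
        O.value B β (gauge γ V) = O.value B β V) ∧
      (Even m → (∀ i, 4 ≤ (O.J i).length) →
        ∃ a : ℝ, Converges μ (O.value B) (fun β v => β * (v - O.gaussian B)) a) ∧
      (Odd m → (Finset.univ.filter fun i => (O.J i).length < 4).card ≤ 2 →
        ∃ a : ℝ, Converges μ (O.value B) (fun β v => Real.sqrt β * v) a)) ∧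
    (∀ (J : List (Fin d)) (p q r : Fin d × Fin d), J.Pairwise (· ≤ ·) → 3 ≤ J.length →
      q.1 ≠ q.2 → r.1 ≠ r.2 → Summable (threeGluonStep J p q r) ∧
      Converges μ (fun β => cubic B β J p q r 0) (fun β v => Real.sqrt β * v)
        (structureSum B * threeGluon J p q r)) ∧
    ((∃ a b, B.X a * B.X b ≠ B.X b * B.X a) → 0 < structureSum B ∧
      ∀ m : ℕ, ∃ (J : List (Fin d)) (p q r : Fin d × Fin d), J.Pairwise (· ≤ ·) ∧
        m ≤ J.length ∧ 3 ≤ J.length ∧ p.1 ≠ p.2 ∧ q.1 ≠ q.2 ∧ r.1 ≠ r.2 ∧
        threeGluon J p q r ≠ 0) :=
  Pool.Agent.Y16.NextOrder.main hd G hG μ B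

end Pool.Agent.Results.MP_7f377f_mp.NextOrder
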